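import Mathlib

namespace Pool.Agent.Results.MP_86beeb_co.Distinct

/-- `G` is a `(-1,1,t)`-threshold graph. -/
def InC (t : ℝ) {V : Type} (G : SimpleGraph V) : Prop :=
  ∃ r : V → ℝ, ∀ v w : V, v ≠ w →
    (G.Adj v w ↔ ((-1 ≤ r v + r w ∧ r v + r w < 1) ∨ t ≤ r v + r w))

theorem gad (t x0 x1 x2 x3 x4 x5 y0 y1 y2 y3 y4 y5 : ℝ) (ht : 1 < t) (h : x1 ≤ x0)
    (h03 : x0 + y3 < -1 ∨ (1 ≤ x0 + y3 ∧ x0 + y3 < t))
    (h10 : (-1 ≤ x1 + y0 ∧ x1 + y0 < 1) ∨ t ≤ x1 + y0)
    (h11 : x1 + y1 < -1 ∨ (1 ≤ x1 + y1 ∧ x1 + y1 < t))
    (h12 : x1 + y2 < -1 ∨ (1 ≤ x1 + y2 ∧ x1 + y2 < t))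
    (h13 : (-1 ≤ x1 + y3 ∧ x1 + y3 < 1) ∨ t ≤ x1 + y3)
    (h14 : (-1 ≤ x1 + y4 ∧ x1 + y4 < 1) ∨ t ≤ x1 + y4)
    (h15 : (-1 ≤ x1 + y5 ∧ x1 + y5 < 1) ∨ t ≤ x1 + y5)
    (h20 : x2 + y0 < -1 ∨ (1 ≤ x2 + y0 ∧ x2 + y0 < t))
    (h21 : x2 + y1 < -1 ∨ (1 ≤ x2 + y1 ∧ x2 + y1 < t))
    (h22 : (-1 ≤ x2 + y2 ∧ x2 + y2 < 1) ∨ t ≤ x2 + y2)
    (h23 : (-1 ≤ x2 + y3 ∧ x2 + y3 < 1) ∨ t ≤ x2 + y3)
    (h25 : (-1 ≤ x2 + y5 ∧ x2 + y5 < 1) ∨ t ≤ x2 + y5)
    (h31 : (-1 ≤ x3 + y1 ∧ x3 + y1 < 1) ∨ t ≤ x3 + y1)
    (h34 : x3 + y4 < -1 ∨ (1 ≤ x3 + y4 ∧ x3 + y4 < t))
    (h35 : x3 + y5 < -1 ∨ (1 ≤ x3 + y5 ∧ x3 + y5 < t))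
    (h40 : x4 + y0 < -1 ∨ (1 ≤ x4 + y0 ∧ x4 + y0 < t))
    (h43 : x4 + y3 < -1 ∨ (1 ≤ x4 + y3 ∧ x4 + y3 < t))
    (h44 : (-1 ≤ x4 + y4 ∧ x4 + y4 < 1) ∨ t ≤ x4 + y4)
    (h45 : (-1 ≤ x4 + y5 ∧ x4 + y5 < 1) ∨ t ≤ x4 + y5)
    (h50 : x5 + y0 < -1 ∨ (1 ≤ x5 + y0 ∧ x5 + y0 < t))
    (h52 : x5 + y2 < -1 ∨ (1 ≤ x5 + y2 ∧ x5 + y2 < t))
    (h53 : (-1 ≤ x5 + y3 ∧ x5 + y3 < 1) ∨ t ≤ x5 + y3)
    (h54 : (-1 ≤ x5 + y4 ∧ x5 + y4 < 1) ∨ t ≤ x5 + y4)
    (h55 : x5 + y5 < -1 ∨ (1 ≤ x5 + y5 ∧ x5 + y5 < t))
    : False := by
  rcases h03 with h03 | h03
  · skip
    replace h13 := h13.resolve_left (fun h13 => by linarith only [h, ht, h03, h13])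
    linarith only [h, ht, h03, h13]
  · skip
    replace h13 := h13.resolve_right (fun h13 => by linarith only [h, ht, h03, h13])
    rcases h20 with h20 | h20
    · skip
      rcases h10 with h10 | h10
      · skip
        replace h23 := h23.resolve_right (fun h23 => by linarith only [h, ht, h10, h13, h20, h23])
        rcases h12 with h12 | h12
        · skip
          replace h22 := h22.resolve_left (fun h22 => by linarith only [h, ht, h10, h12, h20, h22])
          linarith only [h, ht, h10, h12, h20, h22]
        · skip
          replace h22 := h22.resolve_right (fun h22 => by linarith only [h, ht, h10, h12, h20, h22])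
          rcases h52 with h52 | h52
          · skip
            replace h53 := h53.resolve_left (fun h53 => by linarith only [h, ht, h12, h13, h52, h53])
            linarith only [h, ht, h12, h13, h52, h53]
          · skip
            replace h53 := h53.resolve_right (fun h53 => by linarith only [h, ht, h12, h13, h52, h53])
            replace h50 := h50.resolve_right (fun h50 => by linarith only [h, ht, h20, h23, h50, h53])
            rcases h15 with h15 | h15
            · skip
              replace h25 := h25.resolve_right (fun h25 => by linarith only [h, ht, h10, h15, h20, h25])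
              replace h55 := h55.resolve_left (fun h55 => by linarith only [h, ht, h22, h25, h52, h55])
              linarith only [h, ht, h10, h15, h50, h55]
            · skip
              replace h55 := h55.resolve_left (fun h55 => by linarith only [h, ht, h13, h15, h53, h55])
              replace h25 := h25.resolve_right (fun h25 => by linarith only [h, ht, h22, h25, h52, h55])
              rcases h11 with h11 | h11
              · skip
                rcases h31 with h31 | h31
                · skip
                  replace h35 := h35.resolve_left (fun h35 => by linarith only [h, ht, h11, h15, h31, h35])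
                  linarith only [h, ht, h11, h15, h31, h35]
                · skip
                  replace h35 := h35.resolve_left (fun h35 => by linarith only [h, ht, h11, h15, h31, h35])
                  linarith only [h, ht, h11, h15, h31, h35]
              · skip
                replace h21 := h21.resolve_left (fun h21 => by linarith only [h, ht, h11, h13, h21, h23])
                linarith only [h, ht, h11, h15, h21, h25]
      · skip
        replace h23 := h23.resolve_left (fun h23 => by linarith only [h, ht, h10, h13, h20, h23])
        linarith only [h, ht, h10, h13, h20, h23]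
    · skip
      rcases h10 with h10 | h10
      · skip
        rcases h40 with h40 | h40
        · skip
          replace h43 := h43.resolve_right (fun h43 => by linarith only [h, ht, h10, h13, h40, h43])
          rcases h25 with h25 | h25
          · skip
            replace h45 := h45.resolve_left (fun h45 => by linarith only [h, ht, h20, h25, h40, h45])
            linarith only [h, ht, h20, h25, h40, h45]
          · skip
            rcases h53 with h53 | h53
            · skip
              rcases h55 with h55 | h55
              · skip
                replace h15 := h15.resolve_right (fun h15 => by linarith only [h, ht, h13, h15, h53, h55])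
                replace h45 := h45.resolve_left (fun h45 => by linarith only [h, ht, h43, h45, h53, h55])
                linarith only [h, ht, h10, h15, h40, h45]
              · skip
                replace h45 := h45.resolve_right (fun h45 => by linarith only [h, ht, h43, h45, h53, h55])
                rcases h11 with h11 | h11
                · skip
                  rcases h35 with h35 | h35
                  · skip
                    replace h31 := h31.resolve_left (fun h31 => by linarith only [h, ht, h10, h11, h31, h35, h40, h45])
                    linarith only [h, ht, h10, h11, h31, h35, h40, h45]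
                  · skip
                    replace h31 := h31.resolve_right (fun h31 => by linarith only [h, ht, h10, h11, h31, h35, h40, h45])
                    replace h15 := h15.resolve_right (fun h15 => by linarith only [h, ht, h11, h15, h31, h35])
                    replace h21 := h21.resolve_left (fun h21 => by linarith only [h, ht, h21, h25, h31, h35])
                    replace h23 := h23.resolve_left (fun h23 => by linarith only [h, ht, h11, h13, h21, h23])
                    replace h50 := h50.resolve_left (fun h50 => by linarith only [h, ht, h10, h15, h50, h55])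
                    linarith only [h, ht, h20, h23, h50, h53]
                · skip
                  replace h21 := h21.resolve_left (fun h21 => by linarith only [h, ht, h10, h11, h20, h21])
                  replace h15 := h15.resolve_left (fun h15 => by linarith only [h, ht, h11, h15, h21, h25])
                  replace h23 := h23.resolve_right (fun h23 => by linarith only [h, ht, h11, h13, h21, h23])
                  replace h50 := h50.resolve_left (fun h50 => by linarith only [h, ht, h20, h23, h50, h53])
                  linarith only [h, ht, h10, h15, h50, h55]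
            · skip
              replace h50 := h50.resolve_left (fun h50 => by linarith only [h, ht, h10, h13, h50, h53])
              replace h55 := h55.resolve_left (fun h55 => by linarith only [h, ht, h20, h25, h50, h55])
              replace h15 := h15.resolve_right (fun h15 => by linarith only [h, ht, h13, h15, h53, h55])
              replace h45 := h45.resolve_left (fun h45 => by linarith only [h, ht, h43, h45, h53, h55])
              linarith only [h, ht, h10, h15, h40, h45]
        · skip
          replace h43 := h43.resolve_left (fun h43 => by linarith only [h, ht, h10, h13, h40, h43])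
          rcases h25 with h25 | h25
          · skip
            replace h15 := h15.resolve_right (fun h15 => by linarith only [h, ht, h10, h15, h20, h25])
            replace h45 := h45.resolve_right (fun h45 => by linarith only [h, ht, h20, h25, h40, h45])
            rcases h55 with h55 | h55
            · skip
              replace h50 := h50.resolve_right (fun h50 => by linarith only [h, ht, h10, h15, h50, h55])
              replace h53 := h53.resolve_right (fun h53 => by linarith only [h, ht, h13, h15, h53, h55])
              replace h23 := h23.resolve_left (fun h23 => by linarith only [h, ht, h20, h23, h50, h53])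
              rcases h21 with h21 | h21
              · skip
                rcases h35 with h35 | h35
                · skip
                  replace h31 := h31.resolve_left (fun h31 => by linarith only [h, ht, h21, h25, h31, h35])
                  linarith only [h, ht, h21, h25, h31, h35]
                · skip
                  rcases h14 with h14 | h14
                  · skip
                    replace h34 := h34.resolve_left (fun h34 => by linarith only [h, ht, h14, h15, h34, h35])
                    replace h44 := h44.resolve_right (fun h44 => by linarith only [h, ht, h34, h35, h44, h45])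
                    replace h54 := h54.resolve_left (fun h54 => by linarith only [h, ht, h40, h44, h50, h54])
                    linarith only [h, ht, h14, h15, h54, h55]
                  · skip
                    replace h34 := h34.resolve_left (fun h34 => by linarith only [h, ht, h14, h15, h34, h35])
                    linarith only [h, ht, h14, h15, h34, h35]
              · skip
                replace h11 := h11.resolve_left (fun h11 => by linarith only [h, ht, h11, h15, h21, h25])
                linarith only [h, ht, h11, h13, h21, h23]
            · skip
              replace h50 := h50.resolve_left (fun h50 => by linarith only [h, ht, h20, h25, h50, h55])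
              replace h53 := h53.resolve_left (fun h53 => by linarith only [h, ht, h43, h45, h53, h55])
              replace h23 := h23.resolve_left (fun h23 => by linarith only [h, ht, h20, h23, h50, h53])
              rcases h52 with h52 | h52
              · skip
                replace h22 := h22.resolve_left (fun h22 => by linarith only [h, ht, h22, h25, h52, h55])
                linarith only [h, ht, h22, h25, h52, h55]
              · skip
                replace h12 := h12.resolve_right (fun h12 => by linarith only [h, ht, h12, h13, h52, h53])
                rcases h11 with h11 | h11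
                · skip
                  rcases h44 with h44 | h44
                  · skip
                    replace h14 := h14.resolve_right (fun h14 => by linarith only [h, ht, h13, h14, h43, h44])
                    replace h54 := h54.resolve_left (fun h54 => by linarith only [h, ht, h12, h14, h52, h54])
                    linarith only [h, ht, h40, h44, h50, h54]
                  · skip
                    rcases h35 with h35 | h35
                    · skip
                      replace h31 := h31.resolve_left (fun h31 => by linarith only [h, ht, h11, h15, h31, h35])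
                      linarith only [h, ht, h11, h15, h31, h35]
                    · skip
                      replace h34 := h34.resolve_left (fun h34 => by linarith only [h, ht, h34, h35, h44, h45])
                      linarith only [h, ht, h34, h35, h44, h45]
                · skip
                  replace h21 := h21.resolve_left (fun h21 => by linarith only [h, ht, h11, h13, h21, h23])
                  linarith only [h, ht, h11, h13, h21, h23]
          · skip
            replace h45 := h45.resolve_left (fun h45 => by linarith only [h, ht, h20, h25, h40, h45])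
            rcases h53 with h53 | h53
            · skip
              replace h55 := h55.resolve_left (fun h55 => by linarith only [h, ht, h43, h45, h53, h55])
              rcases h11 with h11 | h11
              · skip
                rcases h35 with h35 | h35
                · skip
                  replace h31 := h31.resolve_left (fun h31 => by linarith only [h, ht, h10, h11, h20, h25, h31, h35])
                  linarith only [h, ht, h10, h11, h20, h25, h31, h35]
                · skip
                  replace h31 := h31.resolve_right (fun h31 => by linarith only [h, ht, h10, h11, h20, h25, h31, h35])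
                  replace h15 := h15.resolve_right (fun h15 => by linarith only [h, ht, h11, h15, h31, h35])
                  replace h21 := h21.resolve_left (fun h21 => by linarith only [h, ht, h21, h25, h31, h35])
                  replace h23 := h23.resolve_left (fun h23 => by linarith only [h, ht, h11, h13, h21, h23])
                  replace h50 := h50.resolve_left (fun h50 => by linarith only [h, ht, h10, h15, h50, h55])
                  linarith only [h, ht, h20, h23, h50, h53]
              · skip
                replace h21 := h21.resolve_left (fun h21 => by linarith only [h, ht, h10, h11, h20, h21])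
                replace h15 := h15.resolve_left (fun h15 => by linarith only [h, ht, h11, h15, h21, h25])
                replace h23 := h23.resolve_right (fun h23 => by linarith only [h, ht, h11, h13, h21, h23])
                replace h50 := h50.resolve_left (fun h50 => by linarith only [h, ht, h20, h23, h50, h53])
                linarith only [h, ht, h10, h15, h50, h55]
            · skip
              replace h55 := h55.resolve_left (fun h55 => by linarith only [h, ht, h43, h45, h53, h55])
              linarith only [h, ht, h43, h45, h53, h55]
      · skip
        replace h23 := h23.resolve_right (fun h23 => by linarith only [h, ht, h10, h13, h20, h23])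
        rcases h53 with h53 | h53
        · skip
          replace h50 := h50.resolve_left (fun h50 => by linarith only [h, ht, h10, h13, h50, h53])
          rcases h22 with h22 | h22
          · skip
            replace h12 := h12.resolve_left (fun h12 => by linarith only [h, ht, h10, h12, h20, h22])
            replace h52 := h52.resolve_left (fun h52 => by linarith only [h, ht, h12, h13, h52, h53])
            rcases h55 with h55 | h55
            · skip
              replace h15 := h15.resolve_right (fun h15 => by linarith only [h, ht, h13, h15, h53, h55])
              replace h25 := h25.resolve_left (fun h25 => by linarith only [h, ht, h22, h25, h52, h55])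
              linarith only [h, ht, h10, h15, h20, h25]
            · skip
              replace h15 := h15.resolve_left (fun h15 => by linarith only [h, ht, h10, h15, h50, h55])
              replace h25 := h25.resolve_right (fun h25 => by linarith only [h, ht, h22, h25, h52, h55])
              rcases h11 with h11 | h11
              · skip
                rcases h31 with h31 | h31
                · skip
                  replace h35 := h35.resolve_left (fun h35 => by linarith only [h, ht, h11, h15, h31, h35])
                  linarith only [h, ht, h11, h15, h31, h35]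
                · skip
                  replace h35 := h35.resolve_left (fun h35 => by linarith only [h, ht, h11, h15, h31, h35])
                  linarith only [h, ht, h11, h15, h31, h35]
              · skip
                replace h21 := h21.resolve_left (fun h21 => by linarith only [h, ht, h11, h13, h21, h23])
                linarith only [h, ht, h11, h15, h21, h25]
          · skip
            replace h12 := h12.resolve_left (fun h12 => by linarith only [h, ht, h10, h12, h20, h22])
            linarith only [h, ht, h10, h12, h20, h22]
        · skip
          replace h50 := h50.resolve_left (fun h50 => by linarith only [h, ht, h10, h13, h50, h53])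
          linarith only [h, ht, h10, h13, h50, h53]


theorem core (t : ℝ) (ht : 1 < t) (m T L N : ℤ) (hm : 1 ≤ m) (hT : m + 4 ≤ T) (hL : L = (T - m + 1) * (2 * m - 1))
    (hN : N = L + 10 * T) (f g : ℤ → ℝ)
    (H : ∀ i j : ℤ, -N ≤ i → i ≤ N → -N ≤ j → j ≤ N →
      (((-m ≤ i + j ∧ i + j < m) ∨ T ≤ i + j) ↔ ((-1 ≤ f i + g j ∧ f i + g j < 1) ∨ t ≤ f i + g j))) :
    (2 * (m : ℝ) - 1) * (t - 1) ≤ 2 * ((T : ℝ) - m + 1) := by
  have hL0 : 0 ≤ L := by rw [hL]; apply mul_nonneg <;> omega
  have Y : ∀ i j : ℤ, -N ≤ i → i ≤ N → -N ≤ j → j ≤ N → ((-m ≤ i + j ∧ i + j < m) ∨ T ≤ i + j) →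
      ((-1 ≤ f i + g j ∧ f i + g j < 1) ∨ t ≤ f i + g j) :=
    fun i j a b c d e => (H i j a b c d).1 e
  have X : ∀ i j : ℤ, -N ≤ i → i ≤ N → -N ≤ j → j ≤ N → ¬ ((-m ≤ i + j ∧ i + j < m) ∨ T ≤ i + j) →
      (f i + g j < -1 ∨ (1 ≤ f i + g j ∧ f i + g j < t)) := by
    intro i j a b c d e
    have h := fun h => e ((H i j a b c d).2 h)
    by_cases h1 : f i + g j < -1
    · exact Or.inl h1
    · right
      constructor
      · by_contra h2
        exact h (Or.inl ⟨by linarith, by linarith⟩)
      · by_contra h2
        exact h (Or.inr (by linarith))
  have step : ∀ i : ℤ, 0 ≤ i → i ≤ L + 3 * T → f i < f (i + 1) := by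
    intro i h0 h1
    by_contra h
    exact gad t _ _ _ _ _ _ _ _ _ _ _ _ ht (not_lt.1 h)
      (X i (T - 1 - i) (by omega) (by omega) (by omega) (by omega) (by omega))
      (Y (i + 1) (m - 2 - i) (by omega) (by omega) (by omega) (by omega) (by omega))
      (X (i + 1) (m + 1 - i) (by omega) (by omega) (by omega) (by omega) (by omega))
      (X (i + 1) (T - 2 - i) (by omega) (by omega) (by omega) (by omega) (by omega))
      (Y (i + 1) (T - 1 - i) (by omega) (by omega) (by omega) (by omega) (by omega))
      (Y (i + 1) (2 * m + T - 2 - i) (by omega) (by omega) (by omega) (by omega) (by omega))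
      (Y (i + 1) (2 * m + T - 1 - i) (by omega) (by omega) (by omega) (by omega) (by omega))
      (X (i + 2) (m - 2 - i) (by omega) (by omega) (by omega) (by omega) (by omega))
      (X (i + 2) (m + 1 - i) (by omega) (by omega) (by omega) (by omega) (by omega))
      (Y (i + 2) (T - 2 - i) (by omega) (by omega) (by omega) (by omega) (by omega))
      (Y (i + 2) (T - 1 - i) (by omega) (by omega) (by omega) (by omega) (by omega))
      (Y (i + 2) (2 * m + T - 1 - i) (by omega) (by omega) (by omega) (by omega) (by omega))
      (Y (i - 2 * m - 1) (m + 1 - i) (by omega) (by omega) (by omega) (by omega) (by omega))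
      (X (i - 2 * m - 1) (2 * m + T - 2 - i) (by omega) (by omega) (by omega) (by omega) (by omega))
      (X (i - 2 * m - 1) (2 * m + T - 1 - i) (by omega) (by omega) (by omega) (by omega) (by omega))
      (X (i - m - T) (m - 2 - i) (by omega) (by omega) (by omega) (by omega) (by omega))
      (X (i - m - T) (T - 1 - i) (by omega) (by omega) (by omega) (by omega) (by omega))
      (Y (i - m - T) (2 * m + T - 2 - i) (by omega) (by omega) (by omega) (by omega) (by omega))
      (Y (i - m - T) (2 * m + T - 1 - i) (by omega) (by omega) (by omega) (by omega) (by omega))
      (X (i - m - T + 1) (m - 2 - i) (by omega) (by omega) (by omega) (by omega) (by omega))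
      (X (i - m - T + 1) (T - 2 - i) (by omega) (by omega) (by omega) (by omega) (by omega))
      (Y (i - m - T + 1) (T - 1 - i) (by omega) (by omega) (by omega) (by omega) (by omega))
      (Y (i - m - T + 1) (2 * m + T - 2 - i) (by omega) (by omega) (by omega) (by omega) (by omega))
      (X (i - m - T + 1) (2 * m + T - 1 - i) (by omega) (by omega) (by omega) (by omega) (by omega))
  have mono : ∀ a b : ℤ, 0 ≤ a → a ≤ b → b ≤ L + 3 * T → f a ≤ f b := by
    intro a b h0 hab
    induction b, hab using Int.le_induction with
    | base => intro _; exact le_refl _
    | succ n hn ih =>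
      intro hb
      exact le_trans (ih (by omega)) (step n (by omega) (by omega)).le
  have lt1 : ∀ i : ℤ, 0 ≤ i → i ≤ L + 2 * T → f i + g (m - 1 - i) < 1 ∧ 1 ≤ f (i + 1) + g (m - 1 - i) := by
    intro i h0 h1
    have a := Y i (m - 1 - i) (by omega) (by omega) (by omega) (by omega) (by omega)
    have b := X (i + 1) (m - 1 - i) (by omega) (by omega) (by omega) (by omega) (by omega)
    have c := step i h0 (by omega)
    rcases a with a | a <;> rcases b with b | b
    · linarith [a.1]
    · exact ⟨a.2, b.1⟩
    · linarith
    · linarith [b.2]
  have A : ∀ i : ℤ, 0 ≤ i → i ≤ L → f (i + (2 * m - 1)) ≤ f i + 2 := by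
    intro i h0 h1
    have a := Y i (m - 1 - (i + (2 * m - 1))) (by omega) (by omega) (by omega) (by omega) (by omega)
    have b := (lt1 (i + (2 * m - 1)) (by omega) (by omega)).1
    rcases a with a | a
    · linarith [a.1]
    · linarith
  have B : ∀ i : ℤ, 0 ≤ i → i ≤ L → f i + (t - 1) ≤ f (i + (T - m + 1)) := by
    intro i h0 h1
    have a := Y (i + (T - m + 1)) (m - 1 - i) (by omega) (by omega) (by omega) (by omega) (by omega)
    have b := lt1 i (by omega) (by omega)
    have c := mono (i + 1) (i + (T - m + 1)) (by omega) (by omega) (by omega)
    rcases a with a | a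
    · linarith [a.2, b.2]
    · linarith [b.1]
  have CA : ∀ k : ℤ, 0 ≤ k → k ≤ T - m + 1 → f (k * (2 * m - 1)) ≤ f 0 + 2 * k := by
    intro k hk
    induction k, hk using Int.le_induction with
    | base => intro _; simp
    | succ n hn ih =>
      intro hb
      have h1 := ih (by omega)
      have h2 := A (n * (2 * m - 1)) (by apply mul_nonneg <;> omega) (by rw [hL]; nlinarith)
      have e : (n + 1) * (2 * m - 1) = n * (2 * m - 1) + (2 * m - 1) := by ring
      rw [e]; push_cast; linarith
  have CB : ∀ k : ℤ, 0 ≤ k → k ≤ 2 * m - 1 → f 0 + k * (t - 1) ≤ f (k * (T - m + 1)) := by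
    intro k hk
    induction k, hk using Int.le_induction with
    | base => intro _; simp
    | succ n hn ih =>
      intro hb
      have h1 := ih (by omega)
      have h2 := B (n * (T - m + 1)) (by apply mul_nonneg <;> omega) (by rw [hL]; nlinarith)
      have e : (n + 1) * (T - m + 1) = n * (T - m + 1) + (T - m + 1) := by ring
      rw [e]; push_cast; linarith
  have h1 := CA (T - m + 1) (by omega) le_rfl
  have h2 := CB (2 * m - 1) (by omega) le_rfl
  rw [mul_comm (2 * m - 1) (T - m + 1)] at h2
  push_cast at h1 h2
  linarith

theorem main (t t' : ℝ) (ht : 1 < t) (htt : t < t') :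
    ∃ (V : Type) (_ : Finite V) (G : SimpleGraph V), InC t G ∧ ¬ InC t' G := by
  obtain ⟨m, hm⟩ := exists_nat_ge (4 / (t - 1) + (t' + 3) / (t' - t) + 1)
  have p1 : 0 < 4 / (t - 1) := by apply div_pos <;> linarith
  have p2 : 0 < (t' + 3) / (t' - t) := by apply div_pos <;> linarith
  have m1 : (1 : ℝ) ≤ m := by linarith
  have m2 : 4 ≤ (m : ℝ) * (t - 1) := by
    have : 4 / (t - 1) ≤ m := by linarith
    rwa [div_le_iff₀ (by linarith)] at this
  have m3 : t' + 3 ≤ (m : ℝ) * (t' - t) := by
    have : (t' + 3) / (t' - t) ≤ m := by linarith
    rwa [div_le_iff₀ (by linarith)] at this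
  set T : ℤ := ⌈t * m⌉ with hT
  have T1 : t * m ≤ T := Int.le_ceil _
  have T2 : (T : ℝ) < t * m + 1 := Int.ceil_lt_add_one _
  set N : ℤ := (T - m + 1) * (2 * m - 1) + 10 * T with hN
  let r : ↥(Set.Icc (-N) N) × Bool → ℝ := fun v => ((v.1 : ℤ) : ℝ) / m
  let G : SimpleGraph (↥(Set.Icc (-N) N) × Bool) :=
    { Adj := fun v w => v ≠ w ∧ ((-1 ≤ r v + r w ∧ r v + r w < 1) ∨ t ≤ r v + r w)
      symm := ⟨fun v w h => ⟨h.1.symm, by rw [add_comm]; exact h.2⟩⟩
      loopless := ⟨fun v h => h.1 rfl⟩ }
  refine ⟨↥(Set.Icc (-N) N) × Bool, inferInstance, G, ⟨r, fun v w h => ⟨fun a => a.2, fun a => ⟨h, a⟩⟩⟩, ?_⟩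
  rintro ⟨ρ, hρ⟩
  have key := core t' (by linarith) m T _ N (by exact_mod_cast m1)
    (by have : ((m : ℤ) : ℝ) + 4 ≤ T := by push_cast; nlinarith
        exact_mod_cast this) rfl hN
    (fun i => if h : -N ≤ i ∧ i ≤ N then ρ (⟨i, h⟩, false) else 0)
    (fun i => if h : -N ≤ i ∧ i ≤ N then ρ (⟨i, h⟩, true) else 0) (by
      intro i j a b c d
      simp only [dif_pos (And.intro a b), dif_pos (And.intro c d)]
      have hne : ((⟨i, a, b⟩, false) : ↥(Set.Icc (-N) N) × Bool) ≠ (⟨j, c, d⟩, true) := by simp
      rw [← hρ _ _ hne]
      have mp : (0 : ℝ) < m := by linarith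
      have e : r (⟨i, a, b⟩, false) + r (⟨j, c, d⟩, true) = ((i + j : ℤ) : ℝ) / m := by
        simp only [r]; push_cast; ring
      show _ ↔ (_ ∧ _)
      rw [e, le_div_iff₀ mp, div_lt_iff₀ mp, le_div_iff₀ mp]
      have e1 : (-1 * (m : ℝ) ≤ ((i + j : ℤ) : ℝ)) ↔ -(m : ℤ) ≤ i + j := by
        rw [neg_one_mul]; exact_mod_cast Iff.rfl
      have e2 : (((i + j : ℤ) : ℝ) < 1 * (m : ℝ)) ↔ i + j < (m : ℤ) := by
        rw [one_mul]; exact_mod_cast Iff.rfl
      have e3 : (t * m ≤ ((i + j : ℤ) : ℝ)) ↔ T ≤ i + j := Int.ceil_le.symm
      rw [e1, e2, e3]
      exact ⟨fun h => ⟨hne, h⟩, fun h => h.2⟩)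
  push_cast at key
  nlinarith

theorem result :
    (∀ t t' : ℝ, 1 < t → t < t' →
      ∃ (V : Type) (_ : Finite V) (G : SimpleGraph V), InC t G ∧ ¬ InC t' G) ∧
    (∀ t t' : ℝ, 1 < t → 1 < t' → t ≠ t' →
      ∃ (V : Type) (_ : Finite V) (G : SimpleGraph V), Xor (InC t G) (InC t' G)) := by
  refine ⟨main, fun t t' h1 h2 h => ?_⟩
  rcases lt_or_gt_of_ne h with h | h
  · obtain ⟨V, i, G, a⟩ := main t t' h1 h
    exact ⟨V, i, G, Or.inl a⟩
  · obtain ⟨V, i, G, a⟩ := main t' t h2 h
    exact ⟨V, i, G, Or.inr a⟩

end Pool.Agent.Results.MP_86beeb_co.Distinct
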